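import Pool.Agent.Q161.CndMain

/-!
# MP_03af38_co: CND graphs of arbitrarily large girth

The definitions are in `Pool.Agent.Q161.CndFinal`: `Traceable G` (there is a Hamiltonian path),
`detour G` (the largest order of a path), `detourAt G v` (the largest order of a path with end
vertex `v`), `IsCND G` (connected, not traceable, `detourAt G v = detour G` for all `v`).
`SimpleGraph.girth` is Mathlib's girth (the length of a shortest cycle, `0` for forests).
-/

namespace Pool.Agent.Results.MP_03af38_co.LargeGirth

open Pool.Agent.Q161.Cnd

/-- For every `g` there is a finite CND graph of girth at least `g`. -/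
theorem result (g : ℕ) (hg : 3 ≤ g) : ∃ (V : Type) (_ : Fintype V) (G : SimpleGraph V),
    IsCND G ∧ g ≤ G.girth := main g hg

end Pool.Agent.Results.MP_03af38_co.LargeGirth
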